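import Pool.Agent.QSB.StmtsE

/-!
# Squad QSB, row S3H (helper17)
-/

set_option autoImplicit false

namespace Pool.Agent.QSB.H17

open Matrix Finset Pool.Agent.QSX Pool.Agent.QSN Pool.Agent.QSB

/-- a criterion for non proportional functionals -/
theorem npr_of_det {V : Type} [AddCommGroup V] [Module ℝ V] (f g : V →ₗ[ℝ] ℝ) (a b : V)
    (h : f a * g b - f b * g a ≠ 0) : NPr f g := by
  constructor
  · intro c e
    apply h
    rw [e]
    simp only [LinearMap.smul_apply, smul_eq_mul]
    ring
  · intro c e
    apply h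
    rw [e]
    simp only [LinearMap.smul_apply, smul_eq_mul]
    ring

section sing

variable {n : ℕ} {α : Type} [Ring α]

theorem ss_same (i j l : Fin n) (a b : α) :
    Matrix.single i j a * Matrix.single j l b = Matrix.single i l (a * b) := by
  simp

theorem ss_ne (i j k l : Fin n) (h : j ≠ k) (a b : α) :
    Matrix.single i j a * Matrix.single k l b = 0 := by
  simp [h]

end sing

section idx

variable {p d : ℕ}

theorem low_not_md {i : Fin (2 * p + d)} (h : (i : ℕ) < p) : ¬ Md p d i := by
  unfold Md
  omega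

theorem up_not_md {i : Fin (2 * p + d)} (h : (i : ℕ) < p) : ¬ Md p d (Fin.rev i) :=
  fun h' => low_not_md h (md_rev.1 h')

theorem sg_low {i : Fin (2 * p + d)} (h : (i : ℕ) < p) : sg p d i = Fin.rev i :=
  sg_out (low_not_md h)

theorem sg_up {i : Fin (2 * p + d)} (h : (i : ℕ) < p) : sg p d (Fin.rev i) = i := by
  rw [sg_out (up_not_md h), Fin.rev_rev]

theorem low_ne_up {i j : Fin (2 * p + d)} (h : (i : ℕ) < p) (h' : (j : ℕ) < p) :
    i ≠ Fin.rev j := by
  intro e
  have := congrArg Fin.val e
  rw [Fin.val_rev] at this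
  have := j.2
  omega

theorem md_ne_low {i r : Fin (2 * p + d)} (h : (i : ℕ) < p) (hr : Md p d r) : r ≠ i := by
  rintro rfl
  exact low_not_md h hr

theorem md_ne_up {i r : Fin (2 * p + d)} (h : (i : ℕ) < p) (hr : Md p d r) : r ≠ Fin.rev i := by
  rintro rfl
  exact up_not_md h hr

theorem up_low (i : Fin (2 * p + d)) (h : ¬ (i : ℕ) < p) (h' : ¬ Md p d i) :
    ((Fin.rev i : Fin (2 * p + d)) : ℕ) < p := by
  rw [Fin.val_rev]
  have := i.2
  unfold Md at h'
  omega

end idx

theorem s3h (ehm : EhmStmt) : S3hStmt := by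
  intro p d k 𝔻 hk hp hd hH
  obtain ⟨-, hT, -, g, hg, hg0, hgT⟩ := hH
  obtain ⟨E1, E2, E3, E4⟩ := ehm p d k hk 𝔻 hT
  obtain ⟨c, hc⟩ : ∃ c : Fin (2 * p + d) → ((datH p d 𝔻).b →ₗ[ℝ] ℝ), c = cH p d hk 𝔻 := ⟨_, rfl⟩
  have hone : (1 : Matrix (Fin k) (Fin k) ℝ) ≠ 0 := by
    intro h
    have := congrFun (congrFun h ⟨0, hk⟩) ⟨0, hk⟩
    rw [Matrix.one_apply_eq, Matrix.zero_apply] at this
    exact one_ne_zero this
  have E1' : ∀ i j, i < j → ¬ (Md p d i ∧ Md p d j) → ∀ a ∈ 𝔻, eH p d i j a ∈ nH p d 𝔻 ∧
      WtV (datH p d 𝔻) (c i - c j) (blk k (2 * p + d) (eH p d i j a)) := by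
    rw [hc]; exact E1
  have E2' : ∀ (ρ : (datH p d 𝔻).b →ₗ[ℝ] ℝ), ∀ x ∈ nH p d 𝔻,
      WtV (datH p d 𝔻) ρ (blk k (2 * p + d) x) → ∀ i j, x i j ≠ 0 → ρ = c i - c j := by
    rw [hc]; exact E2
  have E3' : ∀ i, c (sg p d i) = - c i := by rw [hc]; exact E3
  -- values of the coordinates
  have F1 : ∀ r, Md p d r → c r = 0 := by
    intro r hr
    have h := E3' r
    rw [sg_mid hr] at h
    apply LinearMap.ext
    intro a
    have h' := congrArg (fun f : (datH p d 𝔻).b →ₗ[ℝ] ℝ => f a) h
    simp only [LinearMap.neg_apply] at h'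
    rw [LinearMap.zero_apply]
    linarith
  have F2 : ∀ i : Fin (2 * p + d), (i : ℕ) < p → c (Fin.rev i) = - c i := by
    intro i hi
    have h := E3' i
    rwa [sg_low hi] at h
  have ev : ∀ l : Fin (2 * p + d), (l : ℕ) < p → ∃ a : (datH p d 𝔻).b, ∀ i,
      c i a = (if i = l then 1 else 0) - (if i = Fin.rev l then 1 else 0) := by
    intro l hl
    obtain ⟨a, ha⟩ := E4 (Pi.single ⟨l, hl⟩ 1)
    have hlow : ∀ i : Fin (2 * p + d), (i : ℕ) < p → c i a = if i = l then 1 else 0 := by
      intro i hi
      rw [hc, ha i hi]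
      by_cases h : i = l
      · subst h
        rw [if_pos rfl, Pi.single_eq_same]
      · rw [if_neg h, Pi.single_eq_of_ne]
        intro h'
        have h'' : (i : ℕ) = (l : ℕ) := by simpa using h'
        exact h (Fin.ext h'')
    refine ⟨a, fun i => ?_⟩
    by_cases hi : (i : ℕ) < p
    · rw [hlow i hi, if_neg (low_ne_up hi hl), sub_zero]
    · by_cases hm : Md p d i
      · rw [F1 i hm, if_neg (md_ne_low hl hm), if_neg (md_ne_up hl hm), sub_zero]
        rfl
      · have hr := up_low i hi hm
        have h1 := F2 _ hr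
        rw [Fin.rev_rev] at h1
        rw [h1, LinearMap.neg_apply, hlow _ hr, if_neg (show ¬ i = l from fun h => hi (by rw [h]; exact hl)),
          zero_sub]
        congr 1
        by_cases h : i = Fin.rev l
        · rw [if_pos h, if_pos (by rw [h, Fin.rev_rev])]
        · rw [if_neg h, if_neg (fun h' => h (by rw [← h', Fin.rev_rev]))]
  -- root vectors
  have eapp : ∀ i j : Fin (2 * p + d), ¬ (i = sg p d j ∧ j = sg p d i) →
      ∀ a : Matrix (Fin k) (Fin k) ℝ, eH p d i j a i j = a := by
    intro i j h a
    unfold eH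
    rw [Matrix.sub_apply, Matrix.single_apply_same, Matrix.single_apply_of_ne, sub_zero]
    intro h'
    exact h ⟨h'.1.symm, h'.2.symm⟩
  have bne : ∀ x : Matrix (Fin (2 * p + d)) (Fin (2 * p + d)) (Matrix (Fin k) (Fin k) ℝ),
      x ≠ 0 → blk k (2 * p + d) x ≠ 0 := by
    intro x hx h
    exact hx ((blk k (2 * p + d)).injective (by rw [h, map_zero]))
  have hbk : ∀ X Y Z : Matrix (Fin (2 * p + d)) (Fin (2 * p + d)) (Matrix (Fin k) (Fin k) ℝ),
      Z = X * Y - Y * X → blk k (2 * p + d) Z = blk k (2 * p + d) X * blk k (2 * p + d) Y -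
        blk k (2 * p + d) Y * blk k (2 * p + d) X := by
    intro X Y Z h
    rw [h, map_sub, map_mul, map_mul]
  have R0 : ∀ i j, i < j → ¬ (Md p d i ∧ Md p d j) → ¬ (i = sg p d j ∧ j = sg p d i) →
      ∀ a ∈ 𝔻, a ≠ 0 → RtV (datH p d 𝔻) (c i - c j) (blk k (2 * p + d) (eH p d i j a)) := by
    intro i j h1 h2 h3 a ha ha0
    refine ⟨(E1' i j h1 h2 a ha).2, bne _ ?_⟩
    intro h4
    apply ha0
    rw [← eapp i j h3 a, h4]
    rfl
  have R2 : ∀ i : Fin (2 * p + d), (i : ℕ) < p → IsRt (datH p d 𝔻) ((2 : ℝ) • c i) := by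
    intro i hi
    have hlt : i < Fin.rev i := by
      rw [Fin.lt_def, Fin.val_rev]
      have := i.2
      omega
    refine ⟨blk k (2 * p + d) (eH p d i (Fin.rev i) g), ?_, bne _ ?_⟩
    · have h := (E1' i (Fin.rev i) hlt (fun h => low_not_md hi h.1) g hg).2
      rw [F2 i hi, sub_neg_eq_add, ← two_smul ℝ] at h
      exact h
    · intro h
      have h1 : eH p d i (Fin.rev i) g i (Fin.rev i) = (2 : ℝ) • g := by
        unfold eH
        rw [sg_up hi, sg_low hi, Matrix.sub_apply, Matrix.single_apply_same,
          Matrix.single_apply_same, hgT, neg_smul, one_smul, sub_neg_eq_add, two_smul]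
      rw [h] at h1
      exact hg0 ((smul_eq_zero.1 h1.symm).resolve_left two_ne_zero)
  obtain ⟨r, hr⟩ : ∃ r : Fin (2 * p + d), Md p d r :=
    ⟨⟨p, by omega⟩, by unfold Md; exact ⟨le_rfl, by show p < p + d; omega⟩⟩
  have lt_mid : ∀ (i r : Fin (2 * p + d)), (i : ℕ) < p → Md p d r → i < r := by
    intro i r hi hr
    unfold Md at hr
    rw [Fin.lt_def]
    omega
  have lt_up : ∀ (i j : Fin (2 * p + d)), (i : ℕ) < p → (j : ℕ) < p → i < Fin.rev j := by
    intro i j hi hj
    rw [Fin.lt_def, Fin.val_rev]
    have := j.2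
    omega
  have R1 : ∀ (i r : Fin (2 * p + d)), (i : ℕ) < p → Md p d r → ∀ a ∈ 𝔻, a ≠ 0 →
      RtV (datH p d 𝔻) (c i) (blk k (2 * p + d) (eH p d i r a)) := by
    intro i r hi hr a ha ha0
    have h := R0 i r (lt_mid i r hi hr) (fun h => low_not_md hi h.1)
      (fun h => md_ne_low hi hr (by rw [h.1, sg_mid hr])) a ha ha0
    rwa [F1 r hr, sub_zero] at h
  have h01 : (⟨0, by omega⟩ : Fin (2 * p + d)) < ⟨1, by omega⟩ := by
    rw [Fin.lt_def]; exact Nat.zero_lt_one
  -- the classification
  intro ρ hρ
  have hcl : (∃ i j : Fin (2 * p + d), i < j ∧ (j : ℕ) < p ∧ ρ = c i - c j) ∨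
      (∃ i : Fin (2 * p + d), (i : ℕ) < p ∧ ρ = c i) ∨
      (∃ i h : Fin (2 * p + d), i < h ∧ (h : ℕ) < p ∧ ρ = c i + c h) ∨
      (∃ i : Fin (2 * p + d), (i : ℕ) < p ∧ ρ = (2 : ℝ) • c i) := by
    obtain ⟨z, ⟨hzn, hzw⟩, hz0⟩ := hρ
    obtain ⟨x, hx, rfl⟩ := hzn
    obtain ⟨i, j, hij⟩ : ∃ i j, x i j ≠ 0 := by
      by_contra hcon
      push Not at hcon
      apply hz0
      have : x = 0 := Matrix.ext fun i j => hcon i j
      rw [this]
      exact map_zero _
    have hρ := E2' ρ x hx ⟨⟨x, hx, rfl⟩, hzw⟩ i j hij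
    have hlt : i < j := by
      by_contra h
      exact hij (hx.1.2 i j (not_lt.1 h))
    have hnm : ¬ (Md p d i ∧ Md p d j) := fun h => hij (hx.2.2 i j h.1 h.2)
    by_cases hi : (i : ℕ) < p
    · by_cases hj : (j : ℕ) < p
      · exact Or.inl ⟨i, j, hlt, hj, hρ⟩
      · by_cases hm : Md p d j
        · exact Or.inr (Or.inl ⟨i, hi, by rw [hρ, F1 j hm, sub_zero]⟩)
        · have hh := up_low j hj hm
          have h1 := F2 _ hh
          rw [Fin.rev_rev] at h1
          rw [h1, sub_neg_eq_add] at hρ
          rcases lt_trichotomy i (Fin.rev j) with h2 | h2 | h2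
          · exact Or.inr (Or.inr (Or.inl ⟨i, Fin.rev j, h2, hh, hρ⟩))
          · rw [← h2, ← two_smul ℝ] at hρ
            exact Or.inr (Or.inr (Or.inr ⟨i, hi, hρ⟩))
          · rw [add_comm] at hρ
            exact Or.inr (Or.inr (Or.inl ⟨Fin.rev j, i, h2, hi, hρ⟩))
    · have hjp : ¬ (j : ℕ) < p := by
        rw [Fin.lt_def] at hlt
        omega
      by_cases hm : Md p d i
      · have hmj : ¬ Md p d j := fun h => hnm ⟨hm, h⟩
        have hh := up_low j hjp hmj
        have h1 := F2 _ hh
        rw [Fin.rev_rev] at h1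
        exact Or.inr (Or.inl ⟨Fin.rev j, hh, by rw [hρ, F1 i hm, h1, zero_sub, neg_neg]⟩)
      · have hmj : ¬ Md p d j := by
          unfold Md at hm ⊢
          rw [Fin.lt_def] at hlt
          omega
        have hh := up_low j hjp hmj
        have hh' := up_low i hi hm
        have h1 := F2 _ hh
        have h1' := F2 _ hh'
        rw [Fin.rev_rev] at h1 h1'
        refine Or.inl ⟨Fin.rev j, Fin.rev i, Fin.rev_lt_rev.2 hlt, hh', ?_⟩
        rw [hρ, h1, h1']
        abel
  rcases hcl with ⟨i, j, hij, hj, rfl⟩ | ⟨i, hi, rfl⟩ | ⟨i, h, hih, hh, rfl⟩ | ⟨i, hi, rfl⟩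
  · -- `c i - c j`
    have hi : (i : ℕ) < p := by rw [Fin.lt_def] at hij; omega
    refine Or.inr (Or.inr (Or.inr (Or.inl ⟨(2 : ℝ) • c j, R2 j hj, ?_⟩)))
    have e : (2 : ℝ) • (c i - c j) + (2 : ℝ) • c j = (2 : ℝ) • c i := by
      rw [smul_sub, sub_add_cancel]
    rw [e]
    exact R2 i hi
  · -- `c i`
    rcases Nat.eq_zero_or_pos (i : ℕ) with h0 | h0
    · -- `i = 0`
      refine Or.inl ?_
      obtain ⟨o, ho⟩ : ∃ o : Fin (2 * p + d), (o : ℕ) = 1 := ⟨⟨1, by omega⟩, rfl⟩
      have hop : (o : ℕ) < p := by omega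
      have hio : i < o := by rw [Fin.lt_def]; omega
      have hioN : i ≠ o := ne_of_lt hio
      obtain ⟨v0, hv0⟩ := ev i hi
      obtain ⟨v1, hv1⟩ := ev o hop
      rintro _ ⟨⟨⟨x, hx, rfl⟩, hzw⟩, hz0⟩
      have hw : WtV (datH p d 𝔻) (c i) (blk k (2 * p + d) x) := ⟨⟨x, hx, rfl⟩, hzw⟩
      -- places
      have hpl : ∀ a b, x a b ≠ 0 → (a = i ∧ Md p d b) ∨ (Md p d a ∧ b = Fin.rev i) := by
        intro a b hab
        have h1 := E2' (c i) x hx hw a b hab
        have hlt : a < b := by
          by_contra h
          exact hab (hx.1.2 a b (not_lt.1 h))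
        have hval : ∀ v, c i v = c a v - c b v := by
          intro v
          have := congrArg (fun f : (datH p d 𝔻).b →ₗ[ℝ] ℝ => f v) h1
          simpa using this
        have h2 := hval v0
        rw [hv0 i, hv0 a, hv0 b, if_pos rfl, if_neg (low_ne_up hi hi)] at h2
        by_cases ha : a = i
        · left
          refine ⟨ha, ?_⟩
          by_contra hmb
          by_cases hb : (b : ℕ) < p
          · obtain ⟨v, hv⟩ := ev b hb
            have h3 := hval v
            have hai : a ≠ b := ne_of_lt hlt
            rw [hv i, hv a, hv b, ha] at h3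
            rw [if_pos rfl, if_neg (low_ne_up hb hb)] at h3
            linarith
          · have hb' := up_low b hb hmb
            obtain ⟨v, hv⟩ := ev (Fin.rev b) hb'
            have h3 := hval v
            rw [hv i, hv a, hv b, ha, Fin.rev_rev] at h3
            have h5 : ¬ b = Fin.rev b := by
              intro h
              have h6 := low_ne_up hb' hb'
              rw [Fin.rev_rev] at h6
              exact h6 h.symm
            rw [if_pos (show b = b from rfl), if_neg h5] at h3
            linarith
        · right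
          have hb : b = Fin.rev i := by
            by_contra hb
            rw [if_neg ha, if_neg hb] at h2
            split_ifs at h2 <;> norm_num at h2
          refine ⟨?_, hb⟩
          by_contra hma
          by_cases hal : (a : ℕ) < p
          · obtain ⟨v, hv⟩ := ev a hal
            have h3 := hval v
            rw [hv i, hv a, hv b, hb] at h3
            rw [if_neg (fun h => ha h.symm), if_neg (low_ne_up hi hal), if_pos rfl,
              if_neg (low_ne_up hal hal), if_neg (fun h => low_ne_up hal hi h.symm),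
              if_neg (fun h => ha (Fin.rev_injective h).symm)] at h3
            norm_num at h3
          · have ha' := up_low a hal hma
            obtain ⟨v, hv⟩ := ev (Fin.rev a) ha'
            have h3 := hval v
            have hai : Fin.rev a ≠ i := by
              intro h
              have : a = Fin.rev i := by rw [← h, Fin.rev_rev]
              rw [this, hb] at hlt
              exact lt_irrefl _ hlt
            rw [hv i, hv a, hv b, hb, Fin.rev_rev] at h3
            rw [if_neg (fun h => hai h.symm), if_neg (fun h => ha h.symm),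
              if_neg (fun h => by
                have h5 := low_ne_up ha' ha'
                rw [Fin.rev_rev] at h5
                exact h5 h.symm), if_pos rfl,
              if_neg (fun h => by
                have h6 := Fin.rev_injective h
                rw [← h6, hb] at hlt
                rw [h6] at hi
                exact hal hi),
              if_neg (fun h => by
                rw [hb, h] at hlt
                exact lt_irrefl _ hlt)] at h3
            norm_num at h3
      have hxe : x = ∑ s ∈ Finset.univ.filter (fun s => Md p d s), eH p d i s (x i s) := by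
        ext1 a b
        rw [Matrix.sum_apply]
        have e1 : ∀ s ∈ Finset.univ.filter (fun s => Md p d s), eH p d i s (x i s) a b =
            (if a = i ∧ s = b then x i s else 0) -
              (if s = a ∧ b = Fin.rev i then (x i s)ᵀ else 0) := by
          intro s hs
          rw [Finset.mem_filter] at hs
          unfold eH
          rw [Matrix.sub_apply, sg_mid hs.2, sg_low hi, Matrix.single_apply, Matrix.single_apply]
          congr 1
          · by_cases h : a = i ∧ s = b
            · rw [if_pos h, if_pos ⟨h.1.symm, h.2⟩]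
            · rw [if_neg h, if_neg (fun h' => h ⟨h'.1.symm, h'.2⟩)]
          · by_cases h : s = a ∧ b = Fin.rev i
            · rw [if_pos h, if_pos ⟨h.1, h.2.symm⟩]
            · rw [if_neg h, if_neg (fun h' => h ⟨h'.1, h'.2.symm⟩)]
        rw [Finset.sum_congr rfl e1, Finset.sum_sub_distrib]
        by_cases hab : x a b = 0
        · rw [hab]
          symm
          rw [sub_eq_zero]
          have s1 : ∑ s ∈ Finset.univ.filter (fun s => Md p d s),
              (if a = i ∧ s = b then x i s else 0) = 0 := by
            refine Finset.sum_eq_zero fun s _ => ?_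
            by_cases h : a = i ∧ s = b
            · rw [if_pos h, h.2, ← h.1, hab]
            · rw [if_neg h]
          have s2 : ∑ s ∈ Finset.univ.filter (fun s => Md p d s),
              (if s = a ∧ b = Fin.rev i then (x i s)ᵀ else 0) = 0 := by
            refine Finset.sum_eq_zero fun s hs => ?_
            rw [Finset.mem_filter] at hs
            by_cases h : s = a ∧ b = Fin.rev i
            · rw [if_pos h]
              have h1 := hx.2.1 i s
              rw [sg_mid hs.2, sg_low hi, h.1, ← h.2, hab] at h1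
              rw [h.1]
              exact neg_eq_zero.1 h1.symm
            · rw [if_neg h]
          rw [s1, s2]
        · rcases hpl a b hab with ⟨h1, h2⟩ | ⟨h1, h2⟩
          · have s1 : ∑ s ∈ Finset.univ.filter (fun s => Md p d s),
                (if a = i ∧ s = b then x i s else 0) = x a b := by
              rw [Finset.sum_eq_single b]
              · rw [if_pos ⟨h1, rfl⟩, h1]
              · intro s _ hs
                rw [if_neg (fun h => hs h.2)]
              · intro h
                exact absurd (Finset.mem_filter.2 ⟨Finset.mem_univ _, h2⟩) h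
            have s2 : ∑ s ∈ Finset.univ.filter (fun s => Md p d s),
                (if s = a ∧ b = Fin.rev i then (x i s)ᵀ else 0) = 0 := by
              refine Finset.sum_eq_zero fun s _ => ?_
              rw [if_neg (fun h => md_ne_up hi h2 h.2)]
            rw [s1, s2, sub_zero]
          · have s1 : ∑ s ∈ Finset.univ.filter (fun s => Md p d s),
                (if a = i ∧ s = b then x i s else 0) = 0 := by
              refine Finset.sum_eq_zero fun s _ => ?_
              rw [if_neg (fun h => md_ne_low hi h1 h.1)]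
            have s2 : ∑ s ∈ Finset.univ.filter (fun s => Md p d s),
                (if s = a ∧ b = Fin.rev i then (x i s)ᵀ else 0) = - x a b := by
              rw [Finset.sum_eq_single a]
              · rw [if_pos ⟨rfl, h2⟩]
                have h3 := hx.2.1 i a
                rw [sg_mid h1, sg_low hi, ← h2] at h3
                rw [h3, neg_neg]
              · intro s _ hs
                rw [if_neg (fun h => hs h.1)]
              · intro h
                exact absurd (Finset.mem_filter.2 ⟨Finset.mem_univ _, h1⟩) h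
            rw [s1, s2, sub_neg_eq_add, zero_add]
      rw [hxe, map_sum]
      refine Submodule.sum_mem _ fun s hs => ?_
      rw [Finset.mem_filter] at hs
      have hs := hs.2
      have hxs : x i s ∈ 𝔻 := hx.1.1 i s
      by_cases hxs0 : x i s = 0
      · rw [hxs0]
        have : eH p d i s (0 : Matrix (Fin k) (Fin k) ℝ) = 0 := by
          unfold eH
          rw [Matrix.transpose_zero, Matrix.single_zero, Matrix.single_zero, sub_zero]
        rw [this]
        have h0 : blk k (2 * p + d) (0 : Matrix (Fin (2 * p + d)) (Fin (2 * p + d))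
          (Matrix (Fin k) (Fin k) ℝ)) = 0 := map_zero _
        rw [h0]
        exact Submodule.zero_mem _
      · refine Submodule.subset_span ⟨c i - c o, c o, blk k (2 * p + d) (eH p d i o 1),
          blk k (2 * p + d) (eH p d o s (x i s)), ?_, by abel, ?_, R1 o s hop hs _ hxs hxs0, ?_⟩
        · refine npr_of_det _ _ v0 v1 ?_
          have m1 : ¬ o = i := fun h => hioN h.symm
          rw [LinearMap.sub_apply, LinearMap.sub_apply, hv0 i, hv0 o, hv1 i, hv1 o,
            if_pos (show i = i from rfl), if_pos (show o = o from rfl), if_neg (low_ne_up hi hi),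
            if_neg m1, if_neg (low_ne_up hop hi), if_neg (low_ne_up hop hop), if_neg hioN,
            if_neg (low_ne_up hi hop)]
          norm_num
        · exact R0 i o hio (fun h => low_not_md hi h.1)
            (fun h => low_ne_up hi hop (by rw [h.1, sg_low hop])) 1 𝔻.one_mem hone
        · refine hbk _ _ _ ?_
          unfold eH
          rw [sg_mid hs, sg_low hop, sg_low hi, Matrix.transpose_one]
          simp only [sub_mul, mul_sub]
          rw [ss_same, ss_ne _ _ _ _ (fun h => md_ne_low hop hs h.symm),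
            ss_ne _ _ _ _ (fun h => low_ne_up hop hi h.symm),
            ss_ne _ _ _ _ (fun h => md_ne_up hi hs h.symm),
            ss_ne _ _ _ _ (fun h => md_ne_low hi hs h),
            ss_ne _ _ _ _ (fun h => md_ne_up hop hs h),
            ss_ne _ _ _ _ (fun h => low_ne_up hi hop h.symm), ss_same, one_mul, mul_one]
          abel
    · -- `1 ≤ i`
      obtain ⟨j, hj⟩ : ∃ j : Fin (2 * p + d), (j : ℕ) + 1 = i := ⟨⟨i - 1, by omega⟩, by
        show (i : ℕ) - 1 + 1 = i
        omega⟩
      have hji : j < i := by rw [Fin.lt_def]; omega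
      have hjp : (j : ℕ) < p := by omega
      refine Or.inr (Or.inr (Or.inr (Or.inl ⟨c j - c i, ?_, ?_⟩)))
      · exact ⟨_, R0 j i hji (fun h => low_not_md hjp h.1)
          (fun h => low_ne_up hjp hi (by rw [h.1, sg_low hi])) 1 𝔻.one_mem hone⟩
      · have e : (2 : ℝ) • c i + (c j - c i) = c j - c (Fin.rev i) := by
          rw [F2 i hi, two_smul]
          abel
        rw [e]
        exact ⟨_, R0 j (Fin.rev i) (lt_up j i hjp hi) (fun h => low_not_md hjp h.1)
          (fun h => (ne_of_lt hji) (by rw [h.1, sg_up hi])) 1 𝔻.one_mem hone⟩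
  · -- `c i + c h`
    have hi : (i : ℕ) < p := by rw [Fin.lt_def] at hih; omega
    have hne : i ≠ h := ne_of_lt hih
    refine Or.inl ?_
    obtain ⟨v0, hv0⟩ := ev i hi
    obtain ⟨v1, hv1⟩ := ev h hh
    rintro _ ⟨⟨⟨x, hx, rfl⟩, hzw⟩, hz0⟩
    have hw : WtV (datH p d 𝔻) (c i + c h) (blk k (2 * p + d) x) := ⟨⟨x, hx, rfl⟩, hzw⟩
    have hpl : ∀ a b, x a b ≠ 0 → (a = i ∧ b = Fin.rev h) ∨ (a = h ∧ b = Fin.rev i) := by
      intro a b hab
      have h1 := E2' (c i + c h) x hx hw a b hab
      have hval : ∀ v, c i v + c h v = c a v - c b v := by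
        intro v
        have := congrArg (fun f : (datH p d 𝔻).b →ₗ[ℝ] ℝ => f v) h1
        simpa using this
      have h2 := hval v0
      have h3 := hval v1
      rw [hv0 i, hv0 h, hv0 a, hv0 b, if_pos rfl, if_neg (low_ne_up hi hi),
        if_neg (fun h' => hne h'.symm), if_neg (low_ne_up hh hi)] at h2
      rw [hv1 i, hv1 h, hv1 a, hv1 b, if_pos (show h = h from rfl), if_neg (low_ne_up hh hh),
        if_neg hne, if_neg (low_ne_up hi hh)] at h3
      by_cases ha : a = i
      · left
        refine ⟨ha, ?_⟩
        by_contra hb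
        rw [ha, if_neg hne, if_neg (low_ne_up hi hh), if_neg hb] at h3
        split_ifs at h3 <;> norm_num at h3
      · right
        have hb : b = Fin.rev i := by
          by_contra hb
          rw [if_neg ha, if_neg hb] at h2
          split_ifs at h2 <;> norm_num at h2
        refine ⟨?_, hb⟩
        by_contra ha2
        have q1 : ¬ Fin.rev i = h := fun h' => low_ne_up hh hi h'.symm
        have q2 : ¬ Fin.rev i = Fin.rev h := fun h' => hne (Fin.rev_injective h')
        rw [hb, if_neg ha2, if_neg q1, if_neg q2] at h3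
        split_ifs at h3 <;> norm_num at h3
    obtain ⟨y, hy⟩ : ∃ y, y = x i (Fin.rev h) := ⟨_, rfl⟩
    have hxe : x = eH p d i (Fin.rev h) y := by
      ext1 a b
      unfold eH
      rw [sg_up hh, sg_low hi, Matrix.sub_apply, Matrix.single_apply, Matrix.single_apply]
      by_cases h1 : i = a ∧ Fin.rev h = b
      · rw [if_pos h1, if_neg (fun h' => hne (by rw [h1.1, ← h'.1])), sub_zero, hy, h1.1, h1.2]
      · rw [if_neg h1, zero_sub]
        by_cases h2 : h = a ∧ Fin.rev i = b
        · rw [if_pos h2, ← h2.1, ← h2.2]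
          have h3 := hx.2.1 i (Fin.rev h)
          rw [sg_up hh, sg_low hi] at h3
          rw [h3, hy]
        · rw [if_neg h2, neg_zero]
          by_contra hab
          rcases hpl a b hab with h3 | h3
          · exact h1 ⟨h3.1.symm, h3.2.symm⟩
          · exact h2 ⟨h3.1.symm, h3.2.symm⟩
    have hy0 : y ≠ 0 := by
      intro h0
      apply hz0
      rw [hxe, h0]
      have : eH p d i (Fin.rev h) (0 : Matrix (Fin k) (Fin k) ℝ) = 0 := by
        unfold eH
        rw [Matrix.transpose_zero, Matrix.single_zero, Matrix.single_zero, sub_zero]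
      rw [this]
      exact map_zero _
    have hyD : y ∈ 𝔻 := by rw [hy]; exact hx.1.1 _ _
    refine Submodule.subset_span ⟨c i, c h, blk k (2 * p + d) (eH p d i r (-y)),
      blk k (2 * p + d) (eH p d h r 1), ?_, rfl, R1 i r hi hr _ (𝔻.neg_mem hyD) (neg_ne_zero.2 hy0),
      R1 h r hh hr _ 𝔻.one_mem hone, ?_⟩
    · refine npr_of_det _ _ v0 v1 ?_
      rw [hv0, hv0, hv1, hv1, if_pos rfl, if_neg (low_ne_up hi hi), if_pos rfl,
        if_neg (low_ne_up hh hh), if_neg hne, if_neg (low_ne_up hi hh),
        if_neg (fun h' => hne h'.symm), if_neg (low_ne_up hh hi)]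
      norm_num
    · rw [hxe]
      refine hbk _ _ _ ?_
      unfold eH
      rw [sg_mid hr, sg_low hi, sg_low hh, sg_up hh, Matrix.transpose_one, Matrix.transpose_neg]
      simp only [sub_mul, mul_sub]
      rw [ss_ne i r h r (md_ne_low hh hr), ss_same i r (Fin.rev h),
        ss_ne r (Fin.rev i) h r (fun h' => low_ne_up hh hi h'.symm),
        ss_ne r (Fin.rev i) r (Fin.rev h) (fun h' => md_ne_up hi hr h'.symm),
        ss_ne h r i r (md_ne_low hi hr), ss_same h r (Fin.rev i),
        ss_ne r (Fin.rev h) i r (fun h' => low_ne_up hi hh h'.symm),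
        ss_ne r (Fin.rev h) r (Fin.rev i) (fun h' => md_ne_up hh hr h'.symm),
        mul_one, one_mul]
      have n1 : Matrix.single i (Fin.rev h) (-y) = - Matrix.single i (Fin.rev h) y := by
        ext a b
        simp [Matrix.single_apply]
        split_ifs <;> simp
      have n2 : Matrix.single h (Fin.rev i) (-yᵀ) = - Matrix.single h (Fin.rev i) yᵀ := by
        ext a b
        simp [Matrix.single_apply]
        split_ifs <;> simp
      rw [n1, n2]
      abel
  · -- `2 c i`
    exact Or.inr (Or.inl ⟨c i, ⟨_, R1 i r hi hr 1 𝔻.one_mem hone⟩, rfl⟩)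

end Pool.Agent.QSB.H17
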